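import Pool.Agent.W631.VP.Defs

set_option autoImplicit false

/-!
# Vopěnka's principle gives countably complete nonprincipal ultrafilters
-/

namespace Pool.Agent.W631.VP

open Cardinal FirstOrder

universe u

/-- points, subsets and sequences of subsets of `A` -/
inductive MC (A : Type u) : Type u
  | pt (x : A) : MC A
  | st (X : Set A) : MC A
  | sq (Q : ℕ → Set A) : MC A

/-- function symbols -/
inductive MFun : ℕ → Type u
  | sing : MFun 1
  | compl : MFun 1
  | cap : MFun 1
  | pr (n : ℕ) : MFun 1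

/-- relation symbols -/
inductive MRel : ℕ → Type u
  | isPt : MRel 1
  | isSt : MRel 1
  | isSq : MRel 1
  | mem : MRel 2

/-- the language -/
def LM : FirstOrder.Language.{u, u} := ⟨MFun, MRel⟩

namespace MC

variable {A : Type u}

/-- singleton -/
def sing : MC A → MC A
  | pt x => st {x}
  | m => m

/-- complement -/
def compl : MC A → MC A
  | st X => st Xᶜ
  | m => m

/-- intersection of a sequence -/
def cap : MC A → MC A
  | sq Q => st (⋂ n, Q n)
  | m => m

/-- terms of a sequence -/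
def pr (n : ℕ) : MC A → MC A
  | sq Q => st (Q n)
  | m => m

end MC

instance (A : Type u) : LM.{u}.Structure (MC A) where
  funMap {n} f x := match n, f, x with
    | _, MFun.sing, x => (x 0).sing
    | _, MFun.compl, x => (x 0).compl
    | _, MFun.cap, x => (x 0).cap
    | _, MFun.pr n, x => (x 0).pr n
  RelMap {n} r x := match n, r, x with
    | _, MRel.isPt, x => ∃ a, x 0 = MC.pt a
    | _, MRel.isSt, x => ∃ X, x 0 = MC.st X
    | _, MRel.isSq, x => ∃ Q, x 0 = MC.sq Q
    | _, MRel.mem, x => ∃ a X, x 0 = MC.pt a ∧ x 1 = MC.st X ∧ a ∈ X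

section

variable {A B : Type u} (e : MC A ↪[LM.{u}] MC B)

theorem e_pt (a : A) : ∃ b, e (MC.pt a) = MC.pt b :=
  (e.map_rel (MRel.isPt : LM.{u}.Relations 1) ![MC.pt a]).2 ⟨a, rfl⟩

theorem e_st (X : Set A) : ∃ Y, e (MC.st X) = MC.st Y :=
  (e.map_rel (MRel.isSt : LM.{u}.Relations 1) ![MC.st X]).2 ⟨X, rfl⟩

theorem e_sq (Q : ℕ → Set A) : ∃ Y, e (MC.sq Q) = MC.sq Y :=
  (e.map_rel (MRel.isSq : LM.{u}.Relations 1) ![MC.sq Q]).2 ⟨Q, rfl⟩

theorem e_sing (m : MC A) : e m.sing = (e m).sing :=
  e.map_fun (MFun.sing : LM.{u}.Functions 1) ![m]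

theorem e_compl (m : MC A) : e m.compl = (e m).compl :=
  e.map_fun (MFun.compl : LM.{u}.Functions 1) ![m]

theorem e_cap (m : MC A) : e m.cap = (e m).cap :=
  e.map_fun (MFun.cap : LM.{u}.Functions 1) ![m]

theorem e_pr (n : ℕ) (m : MC A) : e (m.pr n) = (e m).pr n :=
  e.map_fun (MFun.pr n : LM.{u}.Functions 1) ![m]

include e in
theorem exists_maps : ∃ (j : A → B) (k : Set A → Set B), Function.Injective j ∧
    (∀ X, k Xᶜ = (k X)ᶜ) ∧ (∀ Q : ℕ → Set A, k (⋂ n, Q n) = ⋂ n, k (Q n)) ∧
    ∀ a, k {a} = {j a} := by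
  choose j hj using e_pt e
  choose k hk using e_st e
  choose l hl using e_sq e
  have hst : ∀ X Y : Set B, MC.st X = MC.st Y → X = Y := fun X Y h => by injection h
  have hpt : ∀ x y : B, MC.pt x = MC.pt y → x = y := fun X Y h => by injection h
  refine ⟨j, k, ?_, ?_, ?_, ?_⟩
  · intro a b h
    have h1 : e (MC.pt a) = e (MC.pt b) := by rw [hj, hj, h]
    have h2 := e.injective h1
    injection h2
  · intro X
    apply hst
    have h := e_compl e (MC.st X)
    rw [hk] at h
    exact (hk Xᶜ).symm.trans h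
  · intro Q
    apply hst
    have h := e_cap e (MC.sq Q)
    rw [hl] at h
    have h1 : ∀ n, l Q n = k (Q n) := by
      intro n
      apply hst
      have h2 := e_pr e n (MC.sq Q)
      rw [hl] at h2
      exact h2.symm.trans (hk (Q n))
    have h3 : MC.st (k (⋂ n, Q n)) = MC.st (⋂ n, l Q n) := (hk _).symm.trans h
    rw [h3]
    simp only [h1]
  · intro a
    apply hst
    have h := e_sing e (MC.pt a)
    rw [hj] at h
    exact (hk {a}).symm.trans h

end

theorem ultra_of_maps {A B : Type u} (j : A → B) (k : Set A → Set B)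
    (h1 : ∀ X, k Xᶜ = (k X)ᶜ) (h2 : ∀ Q : ℕ → Set A, k (⋂ n, Q n) = ⋂ n, k (Q n))
    (h3 : ∀ a, k {a} = {j a}) (ξ : B) (hξ : ξ ∉ Set.range j) :
    ∃ U : Ultrafilter A, CountableInterFilter (U : Filter A) ∧ ∀ x : A, ({x} : Set A) ∉ U := by
  have hinter : ∀ X Y : Set A, k (X ∩ Y) = k X ∩ k Y := by
    intro X Y
    have h := h2 (fun n => if n = 0 then X else Y)
    have e1 : (⋂ n : ℕ, (if n = 0 then X else Y)) = X ∩ Y := by
      ext a
      simp only [Set.mem_iInter, Set.mem_inter_iff]
      constructor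
      · intro h
        exact ⟨by simpa using h 0, by simpa using h 1⟩
      · rintro ⟨hx, hy⟩ n
        split_ifs <;> assumption
    have e2 : (⋂ n : ℕ, k (if n = 0 then X else Y)) = k X ∩ k Y := by
      ext a
      simp only [Set.mem_iInter, Set.mem_inter_iff]
      constructor
      · intro h
        exact ⟨by simpa using h 0, by simpa using h 1⟩
      · rintro ⟨hx, hy⟩ n
        split_ifs <;> assumption
    rw [e1, e2] at h
    exact h
  have hempty : k ∅ = ∅ := by
    have h := hinter ∅ ∅ᶜ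
    rw [h1, Set.inter_compl_self, Set.inter_compl_self] at h
    exact h
  have huniv : k Set.univ = Set.univ := by
    rw [← Set.compl_empty, h1, hempty, Set.compl_empty]
  let F : Filter A :=
    { sets := {X | ξ ∈ k X}
      univ_sets := by
        show ξ ∈ k Set.univ
        rw [huniv]; trivial
      sets_of_superset := by
        intro X Y hX hXY
        have h := hinter X Y
        rw [Set.inter_eq_left.2 hXY] at h
        have hX' : ξ ∈ k X := hX
        rw [h] at hX'
        exact hX'.2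
      inter_sets := by
        intro X Y hX hY
        show ξ ∈ k (X ∩ Y)
        rw [hinter]
        exact ⟨hX, hY⟩ }
  have hF : ∀ X, X ∈ F ↔ ξ ∈ k X := fun X => Iff.rfl
  let U : Ultrafilter A := Ultrafilter.ofComplNotMemIff F (fun X => by
    rw [hF, hF, h1]
    exact not_not)
  have hU : ∀ X, X ∈ U ↔ ξ ∈ k X := fun X => Iff.rfl
  refine ⟨U, ⟨?_⟩, ?_⟩
  · intro S hS hS'
    rcases S.eq_empty_or_nonempty with rfl | hne
    · rw [Set.sInter_empty]
      exact Filter.univ_mem
    · obtain ⟨Q, rfl⟩ := hS.exists_eq_range hne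
      show ξ ∈ k (⋂₀ Set.range Q)
      rw [Set.sInter_range, h2, Set.mem_iInter]
      intro n
      exact hS' (Q n) ⟨n, rfl⟩
  · intro x hx
    rw [hU, h3] at hx
    exact hξ ⟨x, hx.symm⟩

/-- Vopěnka's principle implies that there is a nonprincipal countably complete ultrafilter. -/
theorem measurable_of_vopenka (hVP : VopenkaPrinciple.{u}) :
    ∃ (S : Type u) (U : Ultrafilter S), CountableInterFilter (U : Filter S) ∧
      ∀ x : S, ({x} : Set S) ∉ U := by
  obtain ⟨α, β, hne, ⟨e⟩⟩ := hVP LM.{u} (fun α => MC (aleph α).out)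
  obtain ⟨j, k, hj, h1, h2, h3⟩ := exists_maps e.toEmbedding
  have h4 : aleph α ≤ aleph β := by
    have h := Cardinal.mk_le_of_injective hj
    rwa [Cardinal.mk_out, Cardinal.mk_out] at h
  have h5 : aleph α < aleph β := lt_of_le_of_ne h4 (fun h => hne (by simpa using h))
  have h6 : ¬ Function.Surjective j := by
    intro hs
    have h := Cardinal.mk_le_of_surjective hs
    rw [Cardinal.mk_out, Cardinal.mk_out] at h
    exact absurd h (not_le.2 h5)
  obtain ⟨ξ, hξ⟩ := not_forall.1 h6
  exact ⟨_, ultra_of_maps j k h1 h2 h3 ξ (fun ⟨a, ha⟩ => hξ ⟨a, ha⟩)⟩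

end Pool.Agent.W631.VP
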