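import Pool.Agent.W631.VP.Defs
import Pool.Agent.W440.DLSmall

set_option autoImplicit false

/-!
# Vopěnka's principle and direct limits of modules
-/

namespace Pool.Agent.W631.VP

open Cardinal Pool.Agent.W440.DL FirstOrder

universe u

/-- a structure -/
structure Str (L : FirstOrder.Language.{u, u}) where
  /-- carrier -/
  car : Type u
  /-- structure -/
  [str : L.Structure car]

attribute [instance] Str.str

theorem exists_seq (G : Cardinal.{u} → Cardinal.{u}) :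
    ∃ κ : Ordinal.{u} → Cardinal.{u}, ∀ α β, β < α → G (κ β) ≤ κ α := by
  refine ⟨WellFounded.fix (C := fun _ => Cardinal.{u}) (wellFounded_lt (α := Ordinal.{u}))
    (fun α ih => ⨆ b : Set.Iio α, G (ih b.1 b.2)), ?_⟩
  intro α β h
  rw [WellFounded.fix_eq _ _ α]
  exact le_ciSup (f := fun b : Set.Iio α => G (WellFounded.fix (C := fun _ => Cardinal.{u})
    (wellFounded_lt (α := Ordinal.{u})) (fun α ih => ⨆ b : Set.Iio α, G (ih b.1 b.2)) b.1))
    (Cardinal.bddAbove_of_small) ⟨β, h⟩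

/-- Vopěnka's principle gives small substructures in every class of structures. -/
theorem reflect (hVP : VopenkaPrinciple.{u}) (L : FirstOrder.Language.{u, u})
    (K : Str L → Prop) : ∃ ν : Cardinal.{u}, ∀ M, K M → ∃ N, K N ∧ #N.car ≤ ν ∧
      Nonempty (N.car ↪[L] M.car) := by
  by_contra hcon
  push Not at hcon
  choose M hM hN using hcon
  obtain ⟨κ, hκ⟩ := exists_seq (fun ν => #(M ν).car)
  obtain ⟨α, β, hne, ⟨e⟩⟩ := hVP L (fun α => (M (κ α)).car)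
  have h1 : ∀ γ, κ γ < #(M (κ γ)).car := by
    intro γ
    by_contra hle
    exact (hN (κ γ) (M (κ γ)) (hM _) (not_lt.1 hle)).false (Language.Embedding.refl L _)
  rcases lt_or_gt_of_ne hne with h | h
  · have h2 := hκ β α h
    exact (hN (κ β) (M (κ α)) (hM _) h2).false e.toEmbedding
  · have h2 : #(M (κ α)).car ≤ #(M (κ β)).car := Cardinal.mk_le_of_injective e.injective
    have h3 := hκ α β h
    exact absurd (h2.trans h3) (not_le.2 (h1 α))

/-- function symbols: constants, scalar multiplication, addition -/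
inductive SFun (R T : Type u) : ℕ → Type u
  | con (t : T) : SFun R T 0
  | smul (r : R) : SFun R T 1
  | add : SFun R T 2

/-- relation symbols: order of the indices, transition maps -/
inductive SRel : ℕ → Type u
  | le : SRel 2
  | tr : SRel 2

/-- the language of direct systems with constants -/
def Ls (R T : Type u) : FirstOrder.Language.{u, u} := ⟨SFun R T, SRel⟩

variable {R : Type u} [Ring R]

/-- a direct system with constants -/
structure Dat (C : Cls R) (T : Type u) where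
  /-- index set -/
  I : Type u
  [po : PartialOrder I]
  [dir : IsDirectedOrder I]
  [ne : Nonempty I]
  /-- system -/
  S : Sys R I
  hC : ∀ i, C (S.X i)
  /-- constants -/
  c : T → Σ i, S.X i

attribute [instance] Dat.po Dat.dir Dat.ne

variable {C : Cls R} {T : Type u}

/-- underlying set -/
def Dat.D (d : Dat C T) : Type u := Σ i, d.S.X i

open Classical in
/-- addition -/
noncomputable def Dat.add (d : Dat C T) (p q : d.D) : d.D :=
  if h : p.1 = q.1 then ⟨q.1, (h ▸ p.2 : d.S.X q.1) + q.2⟩ else p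

theorem Dat.add_mk (d : Dat C T) (i : d.I) (x y : d.S.X i) :
    d.add ⟨i, x⟩ ⟨i, y⟩ = ⟨i, x + y⟩ := dif_pos rfl

noncomputable instance (d : Dat C T) : (Ls R T).Structure d.D where
  funMap {n} f x := match n, f, x with
    | _, SFun.con t, _ => d.c t
    | _, SFun.smul r, x => ⟨(x 0).1, r • (x 0).2⟩
    | _, SFun.add, x => d.add (x 0) (x 1)
  RelMap {n} r x := match n, r, x with
    | _, SRel.le, x => (x 0).1 ≤ (x 1).1
    | _, SRel.tr, x => ∃ h : (x 0).1 ≤ (x 1).1, d.S.f h (x 0).2 = (x 1).2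

/-- a subsystem of a direct system with small modules in `C` -/
structure Sub (C : Cls R) {I : Type u} [PartialOrder I] (S : Sys R I) (ν : Cardinal.{u}) where
  /-- indices -/
  J : Set I
  /-- submodules -/
  H : ∀ i, Submodule R (S.X i)
  dir : ∀ i ∈ J, ∀ j ∈ J, ∃ k ∈ J, i ≤ k ∧ j ≤ k
  cls : ∀ i ∈ J, C (ModuleCat.of R (H i)) ∧ #(H i) ≤ ν
  cl : ∀ {i j : I} (h : i ≤ j), i ∈ J → j ∈ J → ∀ x ∈ H i, S.f h x ∈ H j

section Embed

variable {d' d : Dat C T} (e : d'.D ↪[Ls R T] d.D)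

theorem e_le (p q : d'.D) : (e p).1 ≤ (e q).1 ↔ p.1 ≤ q.1 := by
  have h := e.map_rel (SRel.le : (Ls R T).Relations 2) ![p, q]
  exact h

theorem e_tr (p q : d'.D) : (∃ h : (e p).1 ≤ (e q).1, d.S.f h (e p).2 = (e q).2) ↔
    ∃ h : p.1 ≤ q.1, d'.S.f h p.2 = q.2 := by
  have h := e.map_rel (SRel.tr : (Ls R T).Relations 2) ![p, q]
  exact h

theorem e_smul (r : R) (p : d'.D) : e ⟨p.1, r • p.2⟩ = ⟨(e p).1, r • (e p).2⟩ := by
  have h := e.map_fun (SFun.smul r : (Ls R T).Functions 1) ![p]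
  exact h

theorem e_add (p q : d'.D) : e (d'.add p q) = d.add (e p) (e q) := by
  have h := e.map_fun (SFun.add : (Ls R T).Functions 2) ![p, q]
  exact h

theorem e_con (t : T) : e (d'.c t) = d.c t := by
  have h := e.map_fun (SFun.con t : (Ls R T).Functions 0) ![]
  exact h

theorem e_fst_eq (p q : d'.D) (h : p.1 = q.1) : (e p).1 = (e q).1 :=
  le_antisymm ((e_le e p q).2 h.le) ((e_le e q p).2 h.ge)

theorem fst_eq_of (p q : d'.D) (h : (e p).1 = (e q).1) : p.1 = q.1 :=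
  le_antisymm ((e_le e p q).1 h.le) ((e_le e q p).1 h.ge)

/-- the image of the fibre: linear part -/
theorem exists_fibre (i : d'.I) : ∃ (j : d.I) (φ : d'.S.X i →ₗ[R] d.S.X j),
    Function.Injective φ ∧ ∀ x, e ⟨i, x⟩ = ⟨j, φ x⟩ := by
  have hex : ∀ x : d'.S.X i, ∃ y : d.S.X (e ⟨i, 0⟩).1, e ⟨i, x⟩ = ⟨(e ⟨i, 0⟩).1, y⟩ := by
    intro x
    have h1 : (e ⟨i, x⟩).1 = (e ⟨i, 0⟩).1 := e_fst_eq e _ _ rfl
    generalize hp : e ⟨i, x⟩ = p at h1
    obtain ⟨j, y⟩ := p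
    simp only at h1
    subst h1
    exact ⟨y, rfl⟩
  choose φ hφ using hex
  have hinj : ∀ (j : d.I) (y y' : d.S.X j), (⟨j, y⟩ : d.D) = ⟨j, y'⟩ → y = y' := by
    intro j y y' h
    exact eq_of_heq (Sigma.mk.inj h).2
  refine ⟨(e ⟨i, 0⟩).1,
    { toFun := φ
      map_add' := fun x y => ?_
      map_smul' := fun r x => ?_ }, ?_, hφ⟩
  · apply hinj
    have h1 : e (d'.add ⟨i, x⟩ ⟨i, y⟩) = d.add (e ⟨i, x⟩) (e ⟨i, y⟩) := e_add e _ _
    have h2 : d'.add ⟨i, x⟩ ⟨i, y⟩ = ⟨i, x + y⟩ := Dat.add_mk d' i x y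
    have h3 : d.add ⟨(e ⟨i, 0⟩).1, φ x⟩ ⟨(e ⟨i, 0⟩).1, φ y⟩ = ⟨(e ⟨i, 0⟩).1, φ x + φ y⟩ :=
      Dat.add_mk d _ _ _
    rw [h2, hφ x, hφ y, h3] at h1
    rw [← hφ]
    exact h1
  · apply hinj
    have h1 := e_smul e r ⟨i, x⟩
    rw [hφ x] at h1
    rw [← hφ]
    exact h1
  · intro x y hxy
    have h1 : e ⟨i, x⟩ = e ⟨i, y⟩ := by
      rw [hφ x, hφ y]
      exact congrArg (fun z => (⟨(e ⟨i, 0⟩).1, z⟩ : d.D)) hxy
    have h2 := e.injective h1
    exact eq_of_heq (Sigma.mk.inj h2).2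

include e in
theorem exists_sub (hC : IsoClosed C) : ∃ s : Sub C d.S #d'.D,
    ∀ t, (d.c t).1 ∈ s.J ∧ (d.c t).2 ∈ s.H (d.c t).1 := by
  classical
  choose ε φ hφ1 hφ2 using fun i => exists_fibre e i
  have hε : ∀ i i', ε i ≤ ε i' ↔ i ≤ i' := by
    intro i i'
    have h := e_le e ⟨i, 0⟩ ⟨i', 0⟩
    rw [hφ2, hφ2] at h
    exact h
  have hεi : ∀ i i', ε i = ε i' → i = i' := fun i i' h =>
    le_antisymm ((hε _ _).1 h.le) ((hε _ _).1 h.ge)
  -- the submodules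
  let H : ∀ j, Submodule R (d.S.X j) := fun j =>
    { carrier := {y | y = 0 ∨ ∃ p, e p = ⟨j, y⟩}
      zero_mem' := Or.inl rfl
      add_mem' := by
        rintro y y' (rfl | ⟨p, hp⟩) (rfl | ⟨p', hp'⟩)
        · exact Or.inl (add_zero _)
        · exact Or.inr ⟨p', by rw [zero_add]; exact hp'⟩
        · exact Or.inr ⟨p, by rw [add_zero]; exact hp⟩
        · refine Or.inr ⟨d'.add p p', ?_⟩
          have h1 := e_add e p p'
          rw [hp, hp'] at h1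
          exact h1.trans (Dat.add_mk d _ _ _)
      smul_mem' := by
        rintro r y (rfl | ⟨p, hp⟩)
        · exact Or.inl (smul_zero _)
        · refine Or.inr ⟨⟨p.1, r • p.2⟩, ?_⟩
          have h1 := e_smul e r p
          rw [hp] at h1
          exact h1 }
  have hH : ∀ j y, y ∈ H j ↔ y = 0 ∨ ∃ p, e p = ⟨j, y⟩ := fun j y => Iff.rfl
  have hHε : ∀ i y, y ∈ H (ε i) ↔ ∃ x, φ i x = y := by
    intro i y
    rw [hH]
    constructor
    · rintro (rfl | ⟨⟨i', x⟩, hp⟩)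
      · exact ⟨0, map_zero _⟩
      · rw [hφ2] at hp
        have h1 : i' = i := hεi _ _ (Sigma.mk.inj hp).1
        subst h1
        exact ⟨x, eq_of_heq (Sigma.mk.inj hp).2⟩
    · rintro ⟨x, rfl⟩
      exact Or.inr ⟨⟨i, x⟩, hφ2 i x⟩
  refine ⟨⟨Set.range ε, H, ?_, ?_, ?_⟩, ?_⟩
  · rintro _ ⟨i, rfl⟩ _ ⟨j, rfl⟩
    obtain ⟨k, h1, h2⟩ := exists_ge_ge i j
    exact ⟨ε k, ⟨k, rfl⟩, (hε _ _).2 h1, (hε _ _).2 h2⟩
  · rintro _ ⟨i, rfl⟩
    have h1 : H (ε i) = LinearMap.range (φ i) := by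
      ext y
      rw [hHε]
      exact Iff.rfl
    rw [h1]
    let E : d'.S.X i ≃ₗ[R] LinearMap.range (φ i) := LinearEquiv.ofInjective (φ i) (hφ1 i)
    refine ⟨hC _ _ ⟨E⟩ (d'.hC i), ?_⟩
    rw [← Cardinal.mk_congr E.toEquiv]
    refine Cardinal.mk_le_of_injective (f := fun x => (⟨i, x⟩ : d'.D)) ?_
    intro x y h
    exact eq_of_heq (Sigma.mk.inj h).2
  · rintro _ _ h ⟨i, rfl⟩ ⟨j, rfl⟩ x hx
    rw [hHε] at hx
    obtain ⟨x, rfl⟩ := hx
    rw [hHε]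
    have hij : i ≤ j := (hε _ _).1 h
    have h1 := (e_tr e ⟨i, x⟩ ⟨j, d'.S.f hij x⟩).2 ⟨hij, rfl⟩
    rw [hφ2, hφ2] at h1
    obtain ⟨h2, h3⟩ := h1
    exact ⟨_, h3.symm⟩
  · intro t
    have h1 := e_con e t
    generalize d'.c t = p at h1
    obtain ⟨i, x⟩ := p
    rw [hφ2] at h1
    rw [← h1]
    exact ⟨⟨i, rfl⟩, (hHε _ _).2 ⟨x, rfl⟩⟩

end Embed

/-- Vopěnka's principle gives small subsystems around small sets -/
theorem exists_small_sub (hVP : VopenkaPrinciple.{u}) (hC : IsoClosed C) (μ : Cardinal.{u}) :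
    ∃ ν : Cardinal.{u}, ∀ (I : Type u) [PartialOrder I] [IsDirectedOrder I] [Nonempty I]
      (S : Sys R I), (∀ i, C (S.X i)) → ∀ (T' : Type u) (c : T' → Σ i, S.X i), #T' ≤ μ →
      ∃ s : Sub C S ν, ∀ t, (c t).1 ∈ s.J ∧ (c t).2 ∈ s.H (c t).1 := by
  classical
  obtain ⟨ν, hν⟩ := reflect hVP (Ls R μ.out)
    (fun M => ∃ d : Dat C μ.out, M = ⟨d.D⟩)
  refine ⟨ν, ?_⟩
  intro I _ _ _ S hS T' c hT'
  have h1 : #T' ≤ #(μ.out) := by rwa [Cardinal.mk_out]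
  obtain ⟨j⟩ := h1
  let i0 : I := Classical.arbitrary I
  let c' : μ.out → Σ i, S.X i := Function.extend j c (fun _ => ⟨i0, 0⟩)
  have hc' : ∀ t, c' (j t) = c t := fun t => j.injective.extend_apply c _ t
  let d : Dat C μ.out := ⟨I, S, hS, c'⟩
  obtain ⟨N, ⟨d', rfl⟩, h2, ⟨e⟩⟩ := hν ⟨d.D⟩ ⟨d, rfl⟩
  obtain ⟨s, hs⟩ := exists_sub (d' := d') (d := d) e hC
  refine ⟨⟨s.J, s.H, s.dir, fun i hi => ⟨(s.cls i hi).1, (s.cls i hi).2.trans h2⟩, s.cl⟩, ?_⟩
  intro t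
  have h3 := hs (j t)
  have h4 : d.c (j t) = c t := hc' t
  rw [h4] at h3
  exact h3

/-- Under Vopěnka's principle, the direct limits of modules of `C` are the direct limits of the
modules of `C` of bounded cardinality. -/
theorem exists_bound (hVP : VopenkaPrinciple.{u}) (hC : IsoClosed C) :
    ∃ P : Cls R, IsoClosed P ∧ (∀ M, P M → C M) ∧ (∃ κ : Cardinal.{u}, ∀ M, P M → #M ≤ κ) ∧
      ∀ M, DirLim C M → DirLim P M := by
  classical
  choose G hG using fun μ => exists_small_sub (C := C) hVP hC μ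
  obtain ⟨k, hk0, hk⟩ : ∃ k : ℕ → Cardinal.{u}, k 0 = ℵ₀ ∧
      ∀ n, k (n + 1) = max (k n) (G (k n)) :=
    ⟨fun n => Nat.rec ℵ₀ (fun _ c => max c (G c)) n, rfl, fun n => rfl⟩
  have hmono : Monotone k := by
    apply monotone_nat_of_le_succ
    intro n
    rw [hk]
    exact le_max_left _ _
  have hinf : ∀ n, ℵ₀ ≤ k n := fun n => by
    rw [← hk0]
    exact hmono (Nat.zero_le n)
  have hG' : ∀ n, G (k n) ≤ k (n + 1) := fun n => by
    rw [hk]
    exact le_max_right _ _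
  let P : Cls R := fun M => C M ∧ ∃ n, #M ≤ k n
  refine ⟨P, ?_, fun M h => h.1, ⟨⨆ n : ULift.{u} ℕ, k n.down, ?_⟩, ?_⟩
  · rintro M N ⟨e⟩ ⟨h1, n, h2⟩
    exact ⟨hC _ _ ⟨e⟩ h1, n, by rwa [← Cardinal.mk_congr e.toEquiv]⟩
  · rintro M ⟨-, n, h2⟩
    exact h2.trans (le_ciSup (f := fun n : ULift.{u} ℕ => k n.down)
      Cardinal.bddAbove_of_small ⟨n⟩)
  intro M hM
  obtain ⟨c, I, i1, i2, i3, S, -, hS, g, hg⟩ := limC_of_dirLim hM
  have key : ∀ (n : ℕ) (T' : Type u) (c : T' → Σ i, S.X i), #T' ≤ k n →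
      ∃ s : Sub C S (k (n + 1)), ∀ t, (c t).1 ∈ s.J ∧ (c t).2 ∈ s.H (c t).1 := by
    intro n T' c hT'
    obtain ⟨s, hs⟩ := hG (k n) I S hS T' c hT'
    exact ⟨⟨s.J, s.H, s.dir, fun i hi => ⟨(s.cls i hi).1, (s.cls i hi).2.trans (hG' n)⟩, s.cl⟩,
      hs⟩
  have hone : ∀ n, #(PUnit.{u + 1}) ≤ k n := fun n => by
    rw [Cardinal.mk_punit]
    exact Cardinal.one_le_aleph0.trans (hinf n)
  have hne : Nonempty (SIdx S P) := by
    obtain ⟨i⟩ := i3
    obtain ⟨s, hs⟩ := key 0 PUnit (fun _ => ⟨i, 0⟩) (hone 0)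
    have h1 := (hs PUnit.unit).1
    exact ⟨⟨i, s.H i, (s.cls i h1).1, _, (s.cls i h1).2⟩⟩
  have hdir : IsDirectedOrder (SIdx S P) := ⟨by
    rintro ⟨i, H, h1, n, h2⟩ ⟨j, K, h3, m, h4⟩
    obtain ⟨s, hs⟩ := key (max n m) (H ⊕ K)
      (Sum.elim (fun x => ⟨i, x.1⟩) (fun x => ⟨j, x.1⟩)) (by
        rw [Cardinal.mk_sum, Cardinal.lift_id, Cardinal.lift_id]
        exact Cardinal.add_le_of_le (hinf _) (h2.trans (hmono (le_max_left _ _)))
          (h4.trans (hmono (le_max_right _ _))))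
    have h5 := (hs (Sum.inl 0)).1
    have h6 := (hs (Sum.inr 0)).1
    obtain ⟨l, hl, h7, h8⟩ := s.dir i h5 j h6
    refine ⟨⟨l, s.H l, (s.cls l hl).1, _, (s.cls l hl).2⟩, ⟨h7, fun h x hx => ?_⟩,
      ⟨h8, fun h x hx => ?_⟩⟩
    · exact s.cl h h5 hl x (hs (Sum.inl ⟨x, hx⟩)).2
    · exact s.cl h h6 hl x (hs (Sum.inr ⟨x, hx⟩)).2⟩
  refine dirLim_of_limC (c := #(SIdx S P)) ⟨SIdx S P, inferInstance, hdir, hne, smallSys S P,
    le_rfl, fun p => p.prop, fun p => g p.i ∘ₗ p.H.subtype, ?_, ?_, ?_⟩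
  · rintro p q h ⟨x, hx⟩
    exact hg.comp h.1 x
  · intro y
    obtain ⟨i, x, rfl⟩ := hg.surj y
    obtain ⟨s, hs⟩ := key 0 PUnit (fun _ => ⟨i, x⟩) (hone 0)
    obtain ⟨h1, h2⟩ := hs PUnit.unit
    exact ⟨⟨i, s.H i, (s.cls i h1).1, _, (s.cls i h1).2⟩, ⟨x, h2⟩, rfl⟩
  · rintro ⟨i, H, h1, n, h2⟩ ⟨x, hx⟩ h0
    obtain ⟨j, hij, hj⟩ := hg.ker i x h0
    obtain ⟨s, hs⟩ := key n (H ⊕ PUnit.{u + 1})
      (Sum.elim (fun x => ⟨i, x.1⟩) (fun _ => ⟨j, 0⟩)) (by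
        rw [Cardinal.mk_sum, Cardinal.lift_id, Cardinal.lift_id]
        exact Cardinal.add_le_of_le (hinf _) h2 (hone n))
    have h5 := (hs (Sum.inl 0)).1
    have h6 := (hs (Sum.inr PUnit.unit)).1
    refine ⟨⟨j, s.H j, (s.cls j h6).1, _, (s.cls j h6).2⟩, ⟨hij, fun h x hx => ?_⟩, ?_⟩
    · exact s.cl h h5 h6 x (hs (Sum.inl ⟨x, hx⟩)).2
    · apply Subtype.ext
      exact hj

/-- Under Vopěnka's principle, the class of direct limits of modules of `C` is deconstructible, for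
every class `C` of modules. -/
theorem deconstructible_dirLim (hVP : VopenkaPrinciple.{u}) (hC : IsoClosed C) :
    Deconstructible (DirLim C) := by
  obtain ⟨P, h1, h2, ⟨κ, h3⟩, h4⟩ := exists_bound hVP hC
  have h5 : DirLim C = DirLim P := by
    funext M
    exact propext ⟨h4 M, fun h => dirLim_mono h2 h⟩
  rw [h5]
  have hκ : ∀ M, P M → #M ≤ max κ ℵ₀ := fun M hM => (h3 M hM).trans (le_max_left _ _)
  have h6 := kDec_of_locSmall (C := P) (ν := max κ ℵ₀) (lam := max (max κ ℵ₀) #R)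
    (le_max_right _ _) (fun M hM Z _ => ⟨⊤, fun _ _ => trivial,
      h1 M _ ⟨Submodule.topEquiv.symm⟩ hM,
      (Cardinal.mk_le_of_injective Subtype.val_injective).trans (hκ M hM)⟩)
    (le_max_left _ _) (le_max_right _ _)
  exact ⟨_, h6⟩

end Pool.Agent.W631.VP
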