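import Pool.Agent.W631.VP.Mods

set_option autoImplicit false

/-!
# If Vopěnka's principle fails, the direct limits of some deconstructible class are not
deconstructible
-/

namespace Pool.Agent.W631.VP

open Cardinal Pool.Agent.W440.DL FirstOrder

universe u

/-- letters: reindexings of sequences and formulas -/
abbrev Lt (L : FirstOrder.Language.{u, u}) : Type u := (ℕ → ℕ) ⊕ (Σ n, L.Formula (Fin n))

/-- the group of finite formal sums of sequences of elements of `A` -/
abbrev V (A : Type u) : Type u := (ℕ → A) →₀ ℤ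

/-- the operators on `V A` -/
noncomputable def opsA (L : FirstOrder.Language.{u, u}) (A : Type u) [L.Structure A] :
    Lt L → V A →+ V A
  | Sum.inl σ => Finsupp.mapDomain.addMonoidHom (fun a => a ∘ σ)
  | Sum.inr p => @Finsupp.filterAddHom (ℕ → A) ℤ _ (Sat p.2) (Classical.decPred _)

variable {L : FirstOrder.Language.{u, u}}

theorem compat_of {A B : Type u} [L.Structure A] [L.Structure B] (t : V A →+ V B)
    (h : ∀ g z, t (opsA L A g z) = opsA L B g (t z)) : Compat L t where
  re σ z := h (Sum.inl σ) z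
  fo n φ z := h (Sum.inr ⟨n, φ⟩) z

theorem lin0 {A B : Type u} [L.Structure A] [L.Structure B]
    (h : X0 (opsA L A) →ₗ[FR (Lt L)] X0 (opsA L B)) (h0 : h ≠ 0) :
    Nonempty (A ↪ₑ[L] B) ∧ #A ≤ #(LinearMap.range h) := by
  let t : V A →+ V B := ((eo (ops0 (opsA L B))).symm.toAddMonoidHom.comp h.toAddMonoidHom).comp
    (eo (ops0 (opsA L A))).toAddMonoidHom
  have ht : ∀ z, eo (ops0 (opsA L B)) (t z) = h (eo (ops0 (opsA L A)) z) := fun z => rfl
  have h1 : ∀ g z, t (opsA L A g z) = opsA L B g (t z) := by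
    intro g z
    apply (eo (ops0 (opsA L B))).injective
    rw [ht]
    have e1 : eo (ops0 (opsA L A)) (opsA L A g z) =
      FreeAlgebra.ι ℤ (some g) • eo (ops0 (opsA L A)) z :=
        (ι_smul (ops0 (opsA L A)) (some g) z).symm
    have e2 : eo (ops0 (opsA L B)) (opsA L B g (t z)) =
      FreeAlgebra.ι ℤ (some g) • eo (ops0 (opsA L B)) (t z) :=
        (ι_smul (ops0 (opsA L B)) (some g) (t z)).symm
    rw [e1, e2, map_smul, ht]
  have h2 : t ≠ 0 := by
    rintro h3
    apply h0
    ext z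
    obtain ⟨z, rfl⟩ := (eo (ops0 (opsA L A))).surjective z
    rw [← ht, h3]
    rfl
  obtain ⟨h3, h4⟩ := lin (compat_of t h1) h2
  refine ⟨h3, h4.trans ?_⟩
  refine Cardinal.mk_le_of_injective (f := fun y : Set.range t =>
    (⟨eo (ops0 (opsA L B)) y.1, by
      obtain ⟨z, hz⟩ := y.2
      exact ⟨eo _ z, by rw [← ht, hz]⟩⟩ : LinearMap.range h)) ?_
  intro y y' hy
  apply Subtype.ext
  exact (eo (ops0 (opsA L B))).injective (congrArg Subtype.val hy)

/-- the class: exact modules and the modules `V ⊕ V[x]/(x^3)` -/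
def Cl (L : FirstOrder.Language.{u, u}) (A : Ordinal.{u} → Type u) [∀ α, L.Structure (A α)] :
    Cls (FR (Lt L)) := fun N =>
  Exact (xx (Lt L)) N ∨ ∃ α, Nonempty (X4 (opsA L (A α)) ≃ₗ[FR (Lt L)] N)

variable {A : Ordinal.{u} → Type u} [∀ α, L.Structure (A α)]

theorem Cl_iso : IsoClosed (Cl L A) := by
  rintro M N ⟨e⟩ (h | ⟨α, ⟨e'⟩⟩)
  · exact Or.inl (h.equiv e)
  · exact Or.inr ⟨α, ⟨e'.trans e⟩⟩

theorem Cl_dec : Deconstructible (Cl L A) := by
  let μ : Cardinal.{u} := max #(FR (Lt L)) ℵ₀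
  have hμ : ℵ₀ ≤ μ := le_max_right _ _
  have hR : #(FR (Lt L)) ≤ μ := le_max_left _ _
  refine ⟨Order.succ μ, Cardinal.isRegular_succ hμ, ?_⟩
  intro M hM
  have key : Filt (fun N : ModuleCat.{u} (FR (Lt L)) => Exact (xx (Lt L)) N ∧ #N ≤ μ) M := by
    rcases hM with h | ⟨α, ⟨e⟩⟩
    · exact exact_filt h hμ hR
    · have h1 := filt_X4 (opsA L (A α)) hμ hR
      exact filt_transfer (by
        rintro M N ⟨e⟩ ⟨h1, h2⟩
        exact ⟨h1.equiv e, by rwa [← Cardinal.mk_congr e.toEquiv]⟩) e h1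
  refine hasFiltration_of_filt (filt_mono (fun N hN => ?_) key)
  exact ⟨Or.inl hN.1, ltPresented_of_card hμ hR hN.2⟩

/-- `V` is a direct limit of copies of `V ⊕ V[x]/(x^3)` -/
theorem dirLim_X0 (β : Ordinal.{u}) :
    DirLim (Cl L A) (ModuleCat.of (FR (Lt L)) (X0 (opsA L (A β)))) := by
  classical
  let f := opsA L (A β)
  let e : X4 f →ₗ[FR (Lt L)] X4 f := inc0 f ∘ₗ pr0 f
  have he : ∀ z, e (e z) = e z := fun z => rfl
  let S : Sys (FR (Lt L)) (ULift.{u} ℕ) :=
    { X := fun _ => ModuleCat.of (FR (Lt L)) (X4 f)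
      f := fun {i j} _ => if i = j then LinearMap.id else e
      map_self := fun i x => by simp
      map_map := fun {i j k} hij hjk x => by
        by_cases h1 : i = j
        · subst h1
          simp
        · by_cases h2 : j = k
          · subst h2
            simp [h1]
          · have h3 : i ≠ k := by
              rintro rfl
              exact h1 (le_antisymm hij hjk)
            simp [h1, h2, h3, he] }
  have hS : ∀ {i j : ULift.{u} ℕ} (h : i ≤ j), S.f h = if i = j then LinearMap.id else e :=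
    fun h => rfl
  refine dirLim_of_limC (c := #(ULift.{u} ℕ)) ⟨ULift.{u} ℕ, inferInstance, inferInstance,
    inferInstance, S, le_rfl, fun i => Or.inr ⟨β, ⟨LinearEquiv.refl _ _⟩⟩, fun i => pr0 f,
    ?_, ?_, ?_⟩
  · intro i j h x
    rw [hS]
    split_ifs
    · rfl
    · rfl
  · intro y
    exact ⟨⟨0⟩, inc0 f y, pr0_inc0 f y⟩
  · intro i x hx
    have hlt : i ≤ ⟨i.down + 1⟩ := Nat.le_succ _
    refine ⟨⟨i.down + 1⟩, hlt, ?_⟩
    rw [hS, if_neg (by
      intro h
      have := congrArg ULift.down h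
      simp at this)]
    show inc0 f (pr0 f x) = 0
    rw [hx, map_zero]

theorem card_sub (hA : ∀ α β, α ≠ β → IsEmpty (A α ↪ₑ[L] A β)) (β : Ordinal.{u})
    (F : Submodule (FR (Lt L)) (X0 (opsA L (A β)))) (hF : F ≠ ⊥)
    (hD : DirLim (Cl L A) (ModuleCat.of (FR (Lt L)) F)) : #(A β) ≤ #F := by
  obtain ⟨c, I, i1, i2, i3, S, -, hC, g, hg⟩ := limC_of_dirLim hD
  obtain ⟨z, hz, hz0⟩ := Submodule.exists_mem_ne_zero_of_ne_bot hF
  let x := xx (Lt L)
  have hxF : ∀ y : F, x • y = 0 := fun y => Subtype.ext (X0_xx _ _)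
  let z' : F := ⟨z, hz⟩
  have hz' : z' ≠ 0 := fun h => hz0 (congrArg Subtype.val h)
  obtain ⟨i, zi, hi⟩ := hg.surj z'
  -- the element is killed by `x` at some stage
  obtain ⟨j, hij, hj⟩ := hg.ker i (x • zi) (by rw [map_smul]; exact hxF _)
  rw [map_smul] at hj
  let zj := S.f hij zi
  have hgj : g j zj = z' := by rw [hg.comp, hi]
  by_cases hcase : ∀ k, ∃ l, k ≤ l ∧ Exact x (S.X l)
  · exfalso
    obtain ⟨l, hjl, hl⟩ := hcase j
    have h1 : x • S.f hjl zj = 0 := by rw [← map_smul, hj, map_zero]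
    obtain ⟨w, hw⟩ := hl.2 _ h1
    apply hz'
    rw [← hgj, ← hg.comp hjl, ← hw, map_smul]
    exact hxF _
  · push Not at hcase
    obtain ⟨k, hk⟩ := hcase
    obtain ⟨l, hjl, hkl⟩ := exists_ge_ge j k
    have h1 : x • S.f hjl zj = 0 := by rw [← map_smul, hj, map_zero]
    rcases hC l with h2 | ⟨α, ⟨e⟩⟩
    · exact absurd h2 (hk l hkl)
    · let zl := S.f hjl zj
      have hgl : g l zl = z' := by rw [hg.comp, hgj]
      obtain ⟨y, hy⟩ := e.surjective zl
      have h3 : x • y = 0 := by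
        apply e.injective
        rw [map_smul, hy, map_zero]
        exact h1
      obtain ⟨a, y', hay⟩ := ker_xx _ y h3
      let h : X0 (opsA L (A α)) →ₗ[FR (Lt L)] X0 (opsA L (A β)) :=
        F.subtype ∘ₗ (g l) ∘ₗ e.toLinearMap ∘ₗ inc0 (opsA L (A α))
      have h4 : h a = z := by
        show F.subtype (g l (e (inc0 _ a))) = z
        have h5 : g l (e (inc0 (opsA L (A α)) a)) = z' := by
          have h6 : inc0 (opsA L (A α)) a = y - x • y' := by rw [hay]; abel
          rw [h6, map_sub, map_smul, hy, map_sub, map_smul, hgl]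
          rw [show x • (g l) (e y') = 0 from hxF _, sub_zero]
        rw [h5]
        rfl
      have h7 : h ≠ 0 := by
        rintro h8
        rw [h8] at h4
        exact hz0 h4.symm
      obtain ⟨h9, h10⟩ := lin0 h h7
      have h11 : α = β := by
        by_contra hne
        exact (hA α β hne).false h9.some
      subst h11
      refine h10.trans (Cardinal.mk_le_of_injective (f := fun y : LinearMap.range h =>
        (⟨y.1, by
          obtain ⟨w, hw⟩ := y.2
          rw [← hw]
          exact (g l (e (inc0 _ w))).2⟩ : F)) ?_)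
      intro y1 y2 h12
      exact Subtype.ext (congrArg (fun q : F => q.1) h12)

/-- the structures are arbitrarily large -/
theorem exists_large (hA : ∀ α β, α ≠ β → IsEmpty (A α ↪ₑ[L] A β)) (μ : Cardinal.{u}) :
    ∃ β, μ < #(A β) := by
  classical
  by_contra hcon
  push Not at hcon
  let T : Type u := μ.out
  have h1 : ∀ β, ∃ j : A β → T, Function.Injective j := by
    intro β
    have h2 : #(A β) ≤ #T := by rw [Cardinal.mk_out]; exact hcon β
    obtain ⟨j⟩ := h2
    exact ⟨j, j.injective⟩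
  choose j hj using h1
  let e : ∀ β, A β ≃ Set.range (j β) := fun β => Equiv.ofInjective (j β) (hj β)
  let code : Ordinal.{u} → (Σ s : Set T, L.Structure s) := fun β =>
    ⟨Set.range (j β), (e β).inducedStructure⟩
  have h3 := not_injective_of_ordinal code
  rw [Function.not_injective_iff] at h3
  obtain ⟨α, β, h4, h5⟩ := h3
  refine (not_nonempty_iff.2 (hA α β h5)) ?_
  have key : ∀ (p q : Σ s : Set T, L.Structure s) (_ : p = q),
      Nonempty (@Language.Equiv L p.1 q.1 p.2 q.2) := by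
    rintro p q rfl
    exact ⟨@Language.Equiv.refl L p.1 p.2⟩
  obtain ⟨e1⟩ := key _ _ h4
  letI s1 : L.Structure (Set.range (j α)) := (e α).inducedStructure
  letI s2 : L.Structure (Set.range (j β)) := (e β).inducedStructure
  let e2 : A α ≃[L] Set.range (j α) := (e α).inducedStructureEquiv
  let e3 : A β ≃[L] Set.range (j β) := (e β).inducedStructureEquiv
  let e4 : Set.range (j α) ≃[L] Set.range (j β) := e1
  exact ⟨(e3.symm.comp (e4.comp e2)).toElementaryEmbedding⟩

theorem not_dec (hA : ∀ α β, α ≠ β → IsEmpty (A α ↪ₑ[L] A β)) :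
    ¬ Deconstructible (DirLim (Cl L A)) := by
  rintro ⟨κ, hκ, hdec⟩
  let μ : Cardinal.{u} := max κ (max #(FR (Lt L)) ℵ₀)
  have hμ : ℵ₀ ≤ μ := (le_max_right _ _).trans (le_max_right _ _)
  have hR : #(FR (Lt L)) ≤ μ := (le_max_left _ _).trans (le_max_right _ _)
  have hκμ : κ ≤ Order.succ μ := (le_max_left _ _).trans (Order.le_succ _)
  obtain ⟨β, hβ⟩ := exists_large hA μ
  obtain ⟨W, i1, i2, F, hF1, hF2, hF3⟩ := filt_of_hasFiltration (hdec _ (dirLim_X0 β))
  -- the module is not zero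
  have hne : ∃ w, F w ≠ ⊥ := by
    by_contra hcon
    push Not at hcon
    have h1 : (⨆ w, F w) = ⊥ := by
      rw [eq_bot_iff]
      exact iSup_le fun w => (hcon w).le
    rw [hF2] at h1
    have h2 : Nonempty (A β) := by
      rw [← Cardinal.mk_ne_zero_iff]
      exact (lt_of_le_of_lt (zero_le) hβ).ne'
    obtain ⟨a⟩ := h2
    have h3 : (eo (ops0 (opsA L (A β))) (Finsupp.single (fun _ => a) 1)) ∈
        (⊤ : Submodule (FR (Lt L)) (X0 (opsA L (A β)))) := trivial
    rw [h1, Submodule.mem_bot, AddEquiv.map_eq_zero_iff] at h3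
    exact one_ne_zero (Finsupp.single_eq_zero.1 h3)
  obtain ⟨w, hw, hmin⟩ := WellFounded.has_min (wellFounded_lt (α := W)) {w | F w ≠ ⊥} hne
  have h0 : (⨆ v : Set.Iio w, F v.1) = ⊥ := by
    rw [eq_bot_iff]
    refine iSup_le fun v => ?_
    by_contra hv
    exact hmin v.1 (fun h => hv (by rw [h])) v.2
  have h1 := hF3 w
  rw [h0] at h1
  obtain ⟨e⟩ := quo_equiv (S := F w) (T := ⊥) (P := F w) LinearMap.id
        (fun y => ⟨y, rfl⟩) (fun y => by
          rw [Submodule.mem_bot]
          exact ⟨fun h => congrArg Subtype.val h, fun h => Subtype.ext h⟩)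
  have h2 : DirLim (Cl L A) (ModuleCat.of (FR (Lt L)) (F w)) := dirLim_equiv _ _ ⟨e⟩ h1.1
  have h3 : #(F w) ≤ μ := by
    have h4 := card_of_ltPresented hμ hR hκμ h1.2
    rw [← Cardinal.mk_congr e.toEquiv]
    exact h4
  exact absurd (card_sub hA β (F w) hw h2) (not_le.2 (h3.trans_lt hβ))

end Pool.Agent.W631.VP
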