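import Mathlib

set_option autoImplicit false

/-!
# Vopěnka's principle
-/

namespace Pool.Agent.W631.VP

open FirstOrder

universe u

/-- **Vopěnka's principle** for the structures whose underlying set is in `Type u`: for every
first-order language `L` and every family of `L`-structures indexed by all the ordinals, some member
of the family is elementarily embeddable into another member of the family. -/
def VopenkaPrinciple : Prop :=
  ∀ (L : FirstOrder.Language.{u, u}) (A : Ordinal.{u} → Type u) [∀ α, L.Structure (A α)],
    ∃ α β, α ≠ β ∧ Nonempty (A α ↪ₑ[L] A β)

end Pool.Agent.W631.VP
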