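import Pool.Agent.W440.DLHill

set_option autoImplicit false

/-!
# Filtrations from families of submodules; modules exact with respect to an element `x`
-/

namespace Pool.Agent.W631.VP

open Cardinal Pool.Agent.W440.DL

universe u

variable {R : Type u} [Ring R]

section Family

theorem exists_wo (M : Type u) : ∃ (W : Type u) (_ : LinearOrder W) (_ : WellFoundedLT W)
    (s : W → M), Function.Surjective s := by
  classical
  exact ⟨M, linearOrderOfSTO (WellOrderingRel (α := M)),
    ⟨(IsWellFounded.wf : WellFounded (WellOrderingRel (α := M)))⟩, id, Function.surjective_id⟩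

variable {M : Type u} [AddCommGroup M] [Module R M]

/-- recursive construction of a chain -/
theorem exists_chain {W : Type u} [LinearOrder W] [WellFoundedLT W]
    (nx : Submodule R M → W → Submodule R M) : ∃ F : W → Submodule R M,
      ∀ w, F w = nx (⨆ v : Set.Iio w, F v) w := by
  refine ⟨WellFounded.fix (C := fun _ => Submodule R M)
    (IsWellFounded.wf : WellFounded ((· < ·) : W → W → Prop))
    (fun w ih => nx (⨆ v : Set.Iio w, ih v.1 v.2) w), fun w => ?_⟩
  exact WellFounded.fix_eq _ _ w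

theorem filt_of_family {A : Cls R} (Hf : Set (Submodule R M))
    (hU : ∀ (V : Type u) [LinearOrder V] (H : V → Submodule R M), Monotone H →
      (∀ v, H v ∈ Hf) → (⨆ v, H v) ∈ Hf)
    (hS : ∀ H ∈ Hf, ∀ x : M, ∃ H' ∈ Hf, H ≤ H' ∧ x ∈ H' ∧ A (quo H' H)) : Filt A M := by
  classical
  obtain ⟨W, i1, i2, s, hs⟩ := exists_wo M
  have hn : ∀ (H : Submodule R M) (x : W), ∃ H' : Submodule R M, H ≤ H' ∧
      (H ∈ Hf → H' ∈ Hf ∧ s x ∈ H' ∧ A (quo H' H)) := by
    intro H x
    by_cases h : H ∈ Hf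
    · obtain ⟨H', h1, h2, h3, h4⟩ := hS H h (s x)
      exact ⟨H', h2, fun _ => ⟨h1, h3, h4⟩⟩
    · exact ⟨H, le_rfl, fun h' => absurd h' h⟩
  choose nx nx1 nx2 using hn
  obtain ⟨F, hF⟩ := exists_chain nx
  have hmono : Monotone F := by
    intro v w hvw
    rcases hvw.eq_or_lt with rfl | h
    · exact le_rfl
    · rw [hF w]
      exact (le_iSup (fun v : Set.Iio w => F v) ⟨v, h⟩).trans (nx1 _ _)
  have hmem : ∀ w, F w ∈ Hf := by
    intro w
    refine WellFoundedLT.induction (motive := fun w => F w ∈ Hf) w ?_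
    intro w ih
    rw [hF w]
    exact (nx2 _ _ (hU (Set.Iio w) (fun v => F v) (fun v v' h => hmono h) fun v => ih v v.2)).1
  have hmem' : ∀ w : W, (⨆ v : Set.Iio w, F v.1) ∈ Hf := fun w =>
    hU (Set.Iio w) (fun v => F v.1) (fun v v' h => hmono h) fun v => hmem v.1
  refine ⟨W, i1, i2, F, hmono, ?_, ?_⟩
  · rw [eq_top_iff]
    intro x _
    obtain ⟨w, rfl⟩ := hs x
    have h1 : s w ∈ F w := by
      rw [hF w]
      exact (nx2 _ _ (hmem' w)).2.1
    exact (le_iSup F w) h1
  · intro w
    have h2 := (nx2 _ w (hmem' w)).2.2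
    rw [← hF w] at h2
    exact h2

end Family

/-- The element `x` acts exactly on `M`: the kernel of `x` is equal to its image. -/
def Exact (x : R) (M : Type u) [AddCommGroup M] [Module R M] : Prop :=
  (∀ z : M, x • x • z = 0) ∧ ∀ z : M, x • z = 0 → ∃ w : M, x • w = z

theorem Exact.equiv {x : R} {M N : Type u} [AddCommGroup M] [Module R M] [AddCommGroup N]
    [Module R N] (e : M ≃ₗ[R] N) (h : Exact x M) : Exact x N := by
  refine ⟨fun z => ?_, fun z hz => ?_⟩
  · have := h.1 (e.symm z)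
    rw [← map_smul, ← map_smul] at this
    exact e.symm.map_eq_zero_iff.1 this
  · have h1 : x • e.symm z = 0 := by rw [← map_smul, hz, map_zero]
    obtain ⟨w, hw⟩ := h.2 _ h1
    exact ⟨e w, by rw [← map_smul, hw, e.apply_symm_apply]⟩

section ExactSmall

variable {M : Type u} [AddCommGroup M] [Module R M] {x : R}

/-- every element of an exact module lies in a small exact submodule -/
theorem exact_small (hM : Exact x M) {μ : Cardinal.{u}} (hμ : ℵ₀ ≤ μ) (hR : #R ≤ μ) (y : M) :
    ∃ S : Submodule R M, y ∈ S ∧ #S ≤ μ ∧ ∀ z ∈ S, x • z = 0 → ∃ w ∈ S, x • w = z := by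
  classical
  let wt : M → M := fun z => if h : x • z = 0 then (hM.2 z h).choose else 0
  have hwt : ∀ z, x • z = 0 → x • wt z = z := by
    intro z hz
    have e : wt z = (hM.2 z hz).choose := dif_pos hz
    rw [e]
    exact (hM.2 z hz).choose_spec
  obtain ⟨T, hT0, hT⟩ : ∃ T : ℕ → Submodule R M, T 0 = Submodule.span R {y} ∧
      ∀ n, T (n + 1) = Submodule.span R ((T n : Set M) ∪ wt '' (T n)) :=
    ⟨fun n => Nat.rec (Submodule.span R {y})
      (fun _ S => Submodule.span R ((S : Set M) ∪ wt '' S)) n, rfl, fun n => rfl⟩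
  have hcard : ∀ n, #(T n) ≤ μ := by
    intro n
    induction n with
    | zero =>
      rw [hT0]
      refine mk_span_le _ hμ ?_ hR
      rw [Cardinal.mk_singleton]
      exact Cardinal.one_le_aleph0.trans hμ
    | succ n ih =>
      rw [hT]
      refine mk_span_le _ hμ ?_ hR
      refine (Cardinal.mk_union_le _ _).trans ?_
      exact Cardinal.add_le_of_le hμ ih (Cardinal.mk_image_le.trans ih)
  have hmono : Monotone T := by
    apply monotone_nat_of_le_succ
    intro n
    rw [hT]
    exact fun z hz => Submodule.subset_span (Or.inl hz)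
  have hmem : ∀ z, z ∈ (⨆ n, T n) ↔ ∃ n, z ∈ T n := fun z =>
    Submodule.mem_iSup_of_directed T hmono.directed_le
  refine ⟨⨆ n, T n, (hmem y).2 ⟨0, by rw [hT0]; exact Submodule.subset_span rfl⟩, ?_, ?_⟩
  · have h1 : ((⨆ n, T n : Submodule R M) : Set M) = ⋃ n : ULift.{u} ℕ, (T n.down : Set M) := by
      ext z
      rw [Set.mem_iUnion]
      constructor
      · intro h
        obtain ⟨n, hn⟩ := (hmem z).1 h
        exact ⟨⟨n⟩, hn⟩
      · rintro ⟨⟨n⟩, hn⟩
        exact (hmem z).2 ⟨n, hn⟩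
    have h2 : #(⋃ n : ULift.{u} ℕ, (T n.down : Set M)) ≤ μ := by
      calc #(⋃ n : ULift.{u} ℕ, (T n.down : Set M))
          ≤ Cardinal.sum (fun n : ULift.{u} ℕ => #(T n.down : Set M)) :=
            Cardinal.mk_iUnion_le_sum_mk
        _ ≤ #(ULift.{u} ℕ) * iSup (fun n : ULift.{u} ℕ => #(T n.down : Set M)) :=
            Cardinal.sum_le_mk_mul_iSup _
        _ ≤ μ * μ := mul_le_mul' (by simpa using hμ) (ciSup_le' fun n => hcard n.down)
        _ = μ := Cardinal.mul_eq_self hμ
    rw [← h1] at h2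
    exact h2
  · intro z hz hxz
    obtain ⟨n, hn⟩ := (hmem z).1 hz
    refine ⟨wt z, (hmem _).2 ⟨n + 1, ?_⟩, hwt z hxz⟩
    rw [hT]
    exact Submodule.subset_span (Or.inr ⟨z, hn, rfl⟩)

/-- the submodule `H` is exact in `M` -/
def ExSub (x : R) (H : Submodule R M) : Prop := ∀ z ∈ H, x • z = 0 → ∃ w ∈ H, x • w = z

theorem ExSub.exact (hM : Exact x M) {H : Submodule R M} (h : ExSub x H) : Exact x H := by
  refine ⟨fun z => Subtype.ext (hM.1 z), fun z hz => ?_⟩
  obtain ⟨w, hw, h1⟩ := h z z.2 (congrArg Subtype.val hz)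
  exact ⟨⟨w, hw⟩, Subtype.ext h1⟩

theorem ExSub.quot (hM : Exact x M) {H : Submodule R M} (h : ExSub x H) : Exact x (M ⧸ H) := by
  refine ⟨fun z => ?_, fun z hz => ?_⟩
  · obtain ⟨z, rfl⟩ := Submodule.mkQ_surjective _ z
    rw [← map_smul, ← map_smul, hM.1, map_zero]
  · obtain ⟨z, rfl⟩ := Submodule.mkQ_surjective _ z
    rw [← map_smul, Submodule.mkQ_apply, Submodule.Quotient.mk_eq_zero] at hz
    obtain ⟨w, hw, h1⟩ := h _ hz (hM.1 z)
    obtain ⟨v, hv⟩ := hM.2 (z - w) (by rw [smul_sub, h1, sub_self])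
    refine ⟨Submodule.mkQ H v, ?_⟩
    rw [← map_smul, hv, map_sub]
    have : Submodule.mkQ H w = 0 := by
      rw [Submodule.mkQ_apply, Submodule.Quotient.mk_eq_zero]; exact hw
    rw [this, sub_zero]

/-- an exact module has a filtration by small exact modules -/
theorem exact_filt (hM : Exact x M) {μ : Cardinal.{u}} (hμ : ℵ₀ ≤ μ) (hR : #R ≤ μ) :
    Filt (fun N : ModuleCat.{u} R => Exact x N ∧ #N ≤ μ) M := by
  refine filt_of_family {H | ExSub x H} ?_ ?_
  · intro V _ H hH hE z hz hxz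
    rcases isEmpty_or_nonempty V with hV | hV
    · rw [iSup_of_empty] at hz
      rw [Submodule.mem_bot] at hz
      subst hz
      exact ⟨0, Submodule.zero_mem _, smul_zero _⟩
    · rw [Submodule.mem_iSup_of_directed _ hH.directed_le] at hz
      obtain ⟨v, hv⟩ := hz
      obtain ⟨w, hw, h1⟩ := hE v z hv hxz
      exact ⟨w, le_iSup H v hw, h1⟩
  · intro H hH y
    obtain ⟨S, h1, h2, h3⟩ := exact_small (hH.quot hM) hμ hR (Submodule.mkQ H y)
    have hle : H ≤ S.comap (Submodule.mkQ H) := by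
      intro z hz
      show Submodule.mkQ H z ∈ S
      have : Submodule.mkQ H z = 0 := by
        rw [Submodule.mkQ_apply, Submodule.Quotient.mk_eq_zero]; exact hz
      rw [this]; exact S.zero_mem
    obtain ⟨e⟩ : Nonempty ((S.comap (Submodule.mkQ H) ⧸ H.submoduleOf (S.comap (Submodule.mkQ H)))
        ≃ₗ[R] S) := by
      refine quo_equiv ((Submodule.mkQ H).restrict (fun z hz => hz)) ?_ ?_
      · rintro ⟨z, hz⟩
        obtain ⟨z, rfl⟩ := Submodule.mkQ_surjective _ z
        exact ⟨⟨z, hz⟩, rfl⟩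
      · rintro ⟨z, hz⟩
        constructor
        · intro h
          have h' : Submodule.mkQ H z = 0 := congrArg Subtype.val h
          rwa [Submodule.mkQ_apply, Submodule.Quotient.mk_eq_zero] at h'
        · intro h
          apply Subtype.ext
          show Submodule.mkQ H z = 0
          rw [Submodule.mkQ_apply, Submodule.Quotient.mk_eq_zero]; exact h
    have hS : Exact x S := by
      refine ExSub.exact (hH.quot hM) ?_
      exact h3
    refine ⟨S.comap (Submodule.mkQ H), ?_, hle, h1, hS.equiv e.symm, ?_⟩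
    · intro z hz hxz
      obtain ⟨w, hw, h4⟩ := h3 (Submodule.mkQ H z) hz (by rw [← map_smul, hxz, map_zero])
      obtain ⟨w, rfl⟩ := Submodule.mkQ_surjective _ w
      have h5 : x • w - z ∈ H := by
        rw [← Submodule.Quotient.mk_eq_zero, ← Submodule.mkQ_apply, map_sub, map_smul, h4,
          sub_self]
      obtain ⟨v, hv, h6⟩ := hH (x • w - z) h5 (by rw [smul_sub, hM.1, hxz, sub_zero])
      refine ⟨w - v, Submodule.sub_mem _ hw (hle hv), ?_⟩
      rw [smul_sub, h6]
      abel
    · show #(S.comap (Submodule.mkQ H) ⧸ H.submoduleOf (S.comap (Submodule.mkQ H))) ≤ μ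
      rw [Cardinal.mk_congr e.toEquiv]
      exact h2

end ExactSmall

/-- filtrations are transported by isomorphisms -/
theorem filt_transfer {A : Cls R} (hA : IsoClosed A) {P Q : Type u} [AddCommGroup P] [Module R P]
    [AddCommGroup Q] [Module R Q] (e : P ≃ₗ[R] Q) (h : Filt A P) : Filt A Q := by
  obtain ⟨W, i1, i2, F, hF1, hF2, hF3⟩ := h
  refine ⟨W, i1, i2, fun w => (F w).map e.toLinearMap, ?_, ?_, ?_⟩
  · intro v w hvw
    exact Submodule.map_mono (hF1 hvw)
  · rw [← Submodule.map_iSup, hF2, Submodule.map_top]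
    exact LinearEquiv.range e
  · intro w
    rw [← Submodule.map_iSup]
    obtain ⟨e'⟩ := quo_equiv (S := F w) (T := ⨆ v : Set.Iio w, F v)
      (P := quo ((F w).map e.toLinearMap)
        ((⨆ v : Set.Iio w, F v).map e.toLinearMap))
      ((Submodule.mkQ _) ∘ₗ (e.submoduleMap (F w)).toLinearMap) (by
        intro z
        obtain ⟨z, rfl⟩ := Submodule.mkQ_surjective _ z
        obtain ⟨y, rfl⟩ := (e.submoduleMap (F w)).surjective z
        exact ⟨y, rfl⟩) (by
        intro y
        rw [LinearMap.comp_apply, Submodule.mkQ_apply, Submodule.Quotient.mk_eq_zero]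
        show e y ∈ Submodule.map e.toLinearMap (⨆ v : Set.Iio w, F v) ↔ _
        constructor
        · rintro ⟨z, hz, hz'⟩
          have : z = y := e.injective hz'
          rw [← this]; exact hz
        · intro h
          exact ⟨_, h, rfl⟩)
    exact hA _ _ ⟨e'⟩ (hF3 w)

/-- filtrations of extensions -/
theorem filt_ext {A : Cls R} (hA : IsoClosed A) {M : Type u} [AddCommGroup M] [Module R M]
    (K : Submodule R M) (h1 : Filt A K) (h2 : Filt A (M ⧸ K)) : Filt A M := by
  let F : ULift.{u} (Fin 2) → Submodule R M := fun i => if i.down = 0 then K else ⊤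
  have F0 : F ⟨0⟩ = K := rfl
  have F1 : F ⟨1⟩ = ⊤ := rfl
  have : WellFoundedLT (ULift.{u} (Fin 2)) := Finite.to_wellFoundedLT
  refine filt_concat hA F ?_ ?_ ?_
  · rintro ⟨i⟩ ⟨j⟩ hij
    have hij' : i ≤ j := hij
    fin_cases i <;> fin_cases j
    · exact le_rfl
    · exact le_top
    · exact absurd hij' (by decide)
    · exact le_rfl
  · rw [eq_top_iff, ← F1]
    exact le_iSup F ⟨1⟩
  · rintro ⟨i⟩
    fin_cases i
    · have hb : (⨆ v : Set.Iio (⟨0⟩ : ULift.{u} (Fin 2)), F v) = ⊥ := by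
        rw [eq_bot_iff]
        refine iSup_le ?_
        rintro ⟨⟨j⟩, hj⟩
        exact absurd hj (by simp)
      show Filt A (F ⟨0⟩ ⧸ (⨆ v : Set.Iio (⟨0⟩ : ULift.{u} (Fin 2)), F v).submoduleOf (F ⟨0⟩))
      rw [hb, F0]
      obtain ⟨e⟩ := quo_equiv (S := K) (T := (⊥ : Submodule R M)) (P := K) LinearMap.id
        (fun y => ⟨y, rfl⟩) (fun y => by
          rw [Submodule.mem_bot]
          exact ⟨fun h => congrArg Subtype.val h, fun h => Subtype.ext h⟩)
      exact filt_transfer hA e.symm h1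
    · have hb : (⨆ v : Set.Iio (⟨1⟩ : ULift.{u} (Fin 2)), F v) = K := by
        apply le_antisymm
        · refine iSup_le ?_
          rintro ⟨⟨j⟩, hj⟩
          fin_cases j
          · exact le_rfl
          · exact absurd (Set.mem_Iio.1 hj) (lt_irrefl (⟨1⟩ : ULift.{u} (Fin 2)))
        · exact le_iSup (fun v : Set.Iio (⟨1⟩ : ULift.{u} (Fin 2)) => F v) ⟨⟨0⟩, by
            show (⟨0⟩ : ULift.{u} (Fin 2)) < ⟨1⟩
            exact (by decide : (0 : Fin 2) < 1)⟩
      show Filt A (F ⟨1⟩ ⧸ (⨆ v : Set.Iio (⟨1⟩ : ULift.{u} (Fin 2)), F v).submoduleOf (F ⟨1⟩))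
      rw [hb, F1]
      obtain ⟨e⟩ := quo_equiv (S := (⊤ : Submodule R M)) (T := K) (P := M ⧸ K)
        ((Submodule.mkQ K) ∘ₗ (Submodule.subtype _))
        (fun y => by
          obtain ⟨y, rfl⟩ := Submodule.mkQ_surjective _ y
          exact ⟨⟨y, trivial⟩, rfl⟩) (fun y => by
          rw [LinearMap.comp_apply, Submodule.mkQ_apply, Submodule.Quotient.mk_eq_zero]
          exact Iff.rfl)
      exact filt_transfer hA e.symm h2

end Pool.Agent.W631.VP
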