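import Pool.Agent.W631.VP.Defs

set_option autoImplicit false

/-!
# Additive maps between the groups `ℤ[A^ω]` compatible with reindexing and with formulas
-/

namespace Pool.Agent.W631.VP

open Cardinal FirstOrder

universe u

variable {L : FirstOrder.Language.{u, u}} {A B : Type u} [L.Structure A] [L.Structure B]

/-- a sequence of elements of `A` satisfies the formula (in the first `n` variables) -/
def Sat {A : Type u} [L.Structure A] {n : ℕ} (φ : L.Formula (Fin n)) (a : ℕ → A) : Prop :=
  φ.Realize (fun i : Fin n => a i)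

/-- `t` commutes with reindexing of sequences and with all the formulas. -/
structure Compat (L : FirstOrder.Language.{u, u}) {A B : Type u} [L.Structure A] [L.Structure B]
    (t : ((ℕ → A) →₀ ℤ) →+ ((ℕ → B) →₀ ℤ)) : Prop where
  re : ∀ (σ : ℕ → ℕ) (z : (ℕ → A) →₀ ℤ),
    t (z.mapDomain (fun a => a ∘ σ)) = (t z).mapDomain (fun b => b ∘ σ)
  fo : ∀ (n : ℕ) (φ : L.Formula (Fin n)) (z : (ℕ → A) →₀ ℤ), 
    t (letI : DecidablePred (Sat (A := A) φ) := Classical.decPred _; z.filter (Sat φ)) =
      (letI : DecidablePred (Sat (A := B) φ) := Classical.decPred _; (t z).filter (Sat φ))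

section

variable (t : ((ℕ → A) →₀ ℤ) →+ ((ℕ → B) →₀ ℤ))

/-- support of the image of a basis element -/
noncomputable def supp (a : ℕ → A) : Finset (ℕ → B) := (t (Finsupp.single a 1)).support

variable {t}

open Classical in
theorem supp_re (ht : Compat L t) (a : ℕ → A) (σ : ℕ → ℕ) :
    supp t (a ∘ σ) ⊆ (supp t a).image (fun b => b ∘ σ) := by
  unfold supp
  have h := ht.re σ (Finsupp.single a 1)
  rw [Finsupp.mapDomain_single] at h
  rw [h]
  exact Finsupp.mapDomain_support

open Classical in
theorem card_re (ht : Compat L t) (a : ℕ → A) (σ : ℕ → ℕ) :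
    (supp t (a ∘ σ)).card ≤ (supp t a).card :=
  (Finset.card_le_card (supp_re ht a σ)).trans Finset.card_image_le

theorem bounded_card (ht : Compat L t) : ∃ N, ∀ a, (supp t a).card ≤ N := by
  by_contra hcon
  push Not at hcon
  choose a ha using hcon
  let c : ℕ → A := fun m => a m.unpair.1 m.unpair.2
  have hc : ∀ n, c ∘ (fun m => Nat.pair n m) = a n := by
    intro n
    funext m
    simp [c]
  have h1 := ha ((supp t c).card)
  have h2 := card_re ht c (fun m => Nat.pair (supp t c).card m)
  rw [hc] at h2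
  omega

theorem exists_max (ht : Compat L t) (h0 : t ≠ 0) :
    ∃ a : ℕ → A, (supp t a).Nonempty ∧ ∀ a', (supp t a').card ≤ (supp t a).card := by
  have hne : ∃ a : ℕ → A, (supp t a).Nonempty := by
    by_contra hcon
    push Not at hcon
    apply h0
    apply Finsupp.addHom_ext
    intro a n
    have h1 : t (Finsupp.single a 1) = 0 := by
      have := hcon a
      unfold supp at this
      exact Finsupp.support_eq_empty.1 this
    have h2 : Finsupp.single a n = n • Finsupp.single a (1 : ℤ) := by simp
    rw [h2, map_zsmul, h1]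
    simp
  obtain ⟨a0, ha0⟩ := hne
  obtain ⟨N, hN⟩ := bounded_card ht
  let s : Set ℕ := Set.range (fun a => (supp t a).card)
  have hs : BddAbove s := ⟨N, by rintro _ ⟨a, rfl⟩; exact hN a⟩
  obtain ⟨a, ha⟩ := Nat.sSup_mem (s := s) ⟨_, a0, rfl⟩ hs
  have hmax : ∀ a', (supp t a').card ≤ (supp t a).card := by
    intro a'
    have : (supp t a').card ≤ sSup s := le_csSup hs ⟨a', rfl⟩
    rw [← ha] at this
    exact this
  refine ⟨a, ?_, hmax⟩
  rw [← Finset.card_pos]
  exact lt_of_lt_of_le (Finset.card_pos.2 ha0) (hmax a0)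

/-- everything about a sequence of maximal support -/
structure Top (t : ((ℕ → A) →₀ ℤ) →+ ((ℕ → B) →₀ ℤ)) (s : ℕ → A) : Prop where
  max : ∀ a', (supp t a').card ≤ (supp t s).card

open Classical in
theorem top_card (ht : Compat L t) {s : ℕ → A} (hs : Top t s) {c : ℕ → A} {ρ : ℕ → ℕ}
    (hc : c ∘ ρ = s) : (supp t c).card = (supp t s).card := by
  refine le_antisymm (hs.max c) ?_
  have := card_re ht c ρ
  rwa [hc] at this

open Classical in
theorem image_of_card (ht : Compat L t) {a : ℕ → A} {σ : ℕ → ℕ}
    (h : (supp t (a ∘ σ)).card = (supp t a).card) :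
    supp t (a ∘ σ) = (supp t a).image (fun b => b ∘ σ) := by
  apply Finset.eq_of_subset_of_card_le (supp_re ht a σ)
  rw [h]
  exact Finset.card_image_le

open Classical in
theorem inj_of_card (ht : Compat L t) {a : ℕ → A} {σ : ℕ → ℕ}
    (h : (supp t (a ∘ σ)).card = (supp t a).card) {b b' : ℕ → B} (hb : b ∈ supp t a)
    (hb' : b' ∈ supp t a) (he : b ∘ σ = b' ∘ σ) : b = b' := by
  have h1 := image_of_card ht h
  have h2 : ((supp t a).image (fun b => b ∘ σ)).card = (supp t a).card := by rw [← h1, h]
  rw [Finset.card_image_iff] at h2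
  exact h2 hb hb' he

/-- add an element in front of a sequence -/
def con {A : Type u} (a : A) (s : ℕ → A) : ℕ → A := fun n => Nat.casesOn n a s

theorem con_succ {A : Type u} (a : A) (s : ℕ → A) : con a s ∘ Nat.succ = s := rfl

theorem exists_hom (ht : Compat L t) (h0 : t ≠ 0) : ∃ (s : ℕ → A) (g : A → B), Top t s ∧
    ∀ (c : ℕ → A) (ρ : ℕ → ℕ), c ∘ ρ = s → g ∘ c ∈ supp t c := by
  classical
  obtain ⟨s, ⟨b0, hb0⟩, hmax⟩ := exists_max ht h0
  have hs : Top t s := ⟨hmax⟩
  have hcon : ∀ a : A, (supp t (con a s ∘ Nat.succ)).card = (supp t (con a s)).card := by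
    intro a
    rw [top_card ht hs (con_succ a s), con_succ]
  have hex : ∀ a : A, ∃ b ∈ supp t (con a s), b ∘ Nat.succ = b0 := by
    intro a
    have h1 := image_of_card ht (hcon a)
    rw [con_succ] at h1
    rw [h1, Finset.mem_image] at hb0
    exact hb0
  choose b hb hb' using hex
  refine ⟨s, fun a => b a 0, hs, ?_⟩
  intro c ρ hc
  have hcard : (supp t (c ∘ ρ)).card = (supp t c).card := by
    rw [hc, top_card ht hs hc]
  have h1 := image_of_card ht hcard
  rw [hc] at h1
  have h2 : b0 ∈ (supp t c).image (fun b => b ∘ ρ) := by rw [← h1]; exact hb0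
  obtain ⟨d, hd, hd'⟩ := Finset.mem_image.1 h2
  have key : d = (fun a => b a 0) ∘ c := by
    funext m
    let τ : ℕ → ℕ := con m ρ
    have e1 : c ∘ τ = con (c m) s := by
      funext n
      cases n with
      | zero => rfl
      | succ n => exact congrFun hc n
    have e2 : (supp t (c ∘ τ)).card = (supp t c).card := by
      rw [e1, top_card ht hs (con_succ (c m) s), top_card ht hs hc]
    have e3 := image_of_card ht e2
    rw [e1] at e3
    have e4 : d ∘ τ ∈ supp t (con (c m) s) := by
      rw [e3]
      exact Finset.mem_image_of_mem _ hd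
    have e5 : (d ∘ τ) ∘ Nat.succ = b (c m) ∘ Nat.succ := by
      rw [hb' (c m), ← hd']
      rfl
    have e6 := inj_of_card ht (hcon (c m)) e4 (hb (c m)) e5
    exact congrFun e6 0
  rw [← key]
  exact hd

theorem lin (ht : Compat L t) (h0 : t ≠ 0) :
    Nonempty (A ↪ₑ[L] B) ∧ #A ≤ #(Set.range t) := by
  classical
  obtain ⟨s, g, hs, hg⟩ := exists_hom ht h0
  have hel : ∀ (n : ℕ) (φ : L.Formula (Fin n)) (x : Fin n → A),
      φ.Realize (g ∘ x) ↔ φ.Realize x := by
    intro n φ x
    let c : ℕ → A := fun i => if h : i < n then x ⟨i, h⟩ else s (i - n)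
    have hc : c ∘ (fun m => n + m) = s := by
      funext m
      simp [c]
    have hx : (fun i : Fin n => c i) = x := by
      funext i
      simp [c]
    have hx' : (fun i : Fin n => (g ∘ c) i) = g ∘ x := by
      funext i
      simp [c]
    have h1 := hg c _ hc
    have h2 := ht.fo n φ (Finsupp.single c 1)
    have hsat : Sat φ c ↔ φ.Realize x := by unfold Sat; rw [hx]
    have hsat' : Sat φ (g ∘ c) ↔ φ.Realize (g ∘ x) := by unfold Sat; rw [hx']
    by_cases hr : φ.Realize x
    · refine iff_of_true ?_ hr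
      rw [Finsupp.filter_single_of_pos _ (hsat.2 hr)] at h2
      have h3 : g ∘ c ∈ (t (Finsupp.single c 1)).support := h1
      rw [h2, Finsupp.support_filter, Finset.mem_filter] at h3
      exact hsat'.1 h3.2
    · refine iff_of_false ?_ hr
      rw [Finsupp.filter_single_of_neg _ (fun h => hr (hsat.1 h)), map_zero] at h2
      intro h4
      have h3 : g ∘ c ∈ (t (Finsupp.single c 1)).support := h1
      have h5 : g ∘ c ∈ ((t (Finsupp.single c 1)).filter (Sat φ)).support := by
        rw [Finsupp.support_filter, Finset.mem_filter]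
        exact ⟨h3, hsat'.2 h4⟩
      rw [← h2] at h5
      simp at h5
  let e : A ↪ₑ[L] B := ⟨g, fun n φ x => hel n φ x⟩
  refine ⟨⟨e⟩, ?_⟩
  have hinj : Function.Injective g := e.injective
  refine Cardinal.mk_le_of_injective (f := fun a : A =>
    (⟨t (Finsupp.single (con a s) 1), _, rfl⟩ : Set.range t)) ?_
  intro a a' haa
  have h1 : t (Finsupp.single (con a s) 1) = t (Finsupp.single (con a' s) 1) :=
    congrArg Subtype.val haa
  have h2 : supp t (con a s) = supp t (con a' s) := by unfold supp; rw [h1]
  have h3 := hg (con a s) Nat.succ (con_succ a s)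
  have h4 := hg (con a' s) Nat.succ (con_succ a' s)
  rw [← h2] at h4
  have hcon : (supp t (con a s ∘ Nat.succ)).card = (supp t (con a s)).card := by
    rw [top_card ht hs (con_succ a s), con_succ]
  have h5 := inj_of_card ht hcon h3 h4 (by
    show g ∘ (con a s ∘ Nat.succ) = g ∘ (con a' s ∘ Nat.succ)
    rw [con_succ, con_succ])
  exact hinj (congrFun h5 0)

end

end Pool.Agent.W631.VP
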