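import Pool.Agent.W631.VP.Fam
import Pool.Agent.W631.VP.Lin

set_option autoImplicit false

/-!
# Modules over a free ring given by a family of operators
-/

namespace Pool.Agent.W631.VP

open Cardinal Pool.Agent.W440.DL FirstOrder

universe u

/-- the free ring on `G` and one more letter -/
abbrev FR (G : Type u) : Type u := FreeAlgebra ℤ (Option G)

/-- the additional letter -/
noncomputable def xx (G : Type u) : FR G := FreeAlgebra.ι ℤ none

/-- the group `M` with a family of operators -/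
def OT {G : Type u} {M : Type u} [AddCommGroup M] (_ : Option G → M →+ M) : Type u := M

section OT

variable {G : Type u} {M N : Type u} [AddCommGroup M] [AddCommGroup N]
  (F : Option G → M →+ M) (F' : Option G → N →+ N)

instance : AddCommGroup (OT F) := inferInstanceAs (AddCommGroup M)

/-- identity -/
def eo : M ≃+ OT F := AddEquiv.refl M

/-- the action of the free ring -/
noncomputable instance : Module (FR G) (OT F) :=
  Module.compHom (OT F) (FreeAlgebra.lift ℤ
    (fun g => ((show OT F →+ OT F from F g).toIntLinearMap : Module.End ℤ (OT F)))).toRingHom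

theorem ι_smul (g : Option G) (z : M) : FreeAlgebra.ι ℤ g • eo F z = eo F (F g z) := by
  show (FreeAlgebra.lift ℤ
    (fun g => ((show OT F →+ OT F from F g).toIntLinearMap : Module.End ℤ (OT F))))
    (FreeAlgebra.ι ℤ g) (eo F z) = eo F (F g z)
  rw [FreeAlgebra.lift_ι_apply]
  rfl

end OT

/-- an additive map commuting with the letters is linear -/
theorem smul_of_gen {G : Type u} {P Q : Type u} [AddCommGroup P] [Module (FR G) P]
    [AddCommGroup Q] [Module (FR G) Q] (t : P →+ Q)
    (h : ∀ (g : Option G) (z : P), t (FreeAlgebra.ι ℤ g • z) = FreeAlgebra.ι ℤ g • t z)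
    (r : FR G) (z : P) : t (r • z) = r • t z := by
  induction r using FreeAlgebra.induction generalizing z with
  | grade0 n =>
    have e1 : ∀ z : P, (algebraMap ℤ (FR G) n) • z = n • z := fun z => by
      rw [eq_intCast, Int.cast_smul_eq_zsmul]
    have e2 : ∀ z : Q, (algebraMap ℤ (FR G) n) • z = n • z := fun z => by
      rw [eq_intCast, Int.cast_smul_eq_zsmul]
    rw [e1, e2, map_zsmul]
  | grade1 g => exact h g z
  | mul a b ha hb => rw [mul_smul, mul_smul, ha, hb]
  | add a b ha hb => rw [add_smul, add_smul, map_add, ha, hb]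

/-- a subgroup closed under the letters -/
def subOfGen {G : Type u} {P : Type u} [AddCommGroup P] [Module (FR G) P] (K : AddSubgroup P)
    (h : ∀ (g : Option G), ∀ z ∈ K, FreeAlgebra.ι ℤ g • z ∈ K) : Submodule (FR G) P where
  carrier := K
  add_mem' := K.add_mem
  zero_mem' := K.zero_mem
  smul_mem' r z hz := by
    induction r using FreeAlgebra.induction generalizing z with
    | grade0 n =>
      have e1 : (algebraMap ℤ (FR G) n) • z = n • z := by
        rw [eq_intCast, Int.cast_smul_eq_zsmul]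
      rw [e1]
      exact K.zsmul_mem hz n
    | grade1 g => exact h g z hz
    | mul a b ha hb => rw [mul_smul]; exact ha _ (hb _ hz)
    | add a b ha hb => rw [add_smul]; exact K.add_mem (ha _ hz) (hb _ hz)

section Olin

variable {G : Type u} {M N : Type u} [AddCommGroup M] [AddCommGroup N]
  {F : Option G → M →+ M} {F' : Option G → N →+ N}

/-- the linear map given by an additive map commuting with the operators -/
def olin (t : M →+ N) (h : ∀ g z, t (F g z) = F' g (t z)) : OT F →ₗ[FR G] OT F' where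
  toFun z := eo F' (t ((eo F).symm z))
  map_add' z z' := by simp
  map_smul' r z := by
    refine smul_of_gen ((eo F').toAddMonoidHom.comp (t.comp (eo F).symm.toAddMonoidHom)) ?_ r z
    intro g z
    obtain ⟨z, rfl⟩ := (eo F).surjective z
    rw [ι_smul]
    show eo F' (t (F g z)) = FreeAlgebra.ι ℤ g • eo F' (t z)
    rw [ι_smul, h]

theorem olin_eo (t : M →+ N) (h : ∀ g z, t (F g z) = F' g (t z)) (z : M) :
    olin t h (eo F z) = eo F' (t z) := rfl

end Olin

section Build

variable {G V : Type u} [AddCommGroup V] (f : G → V →+ V)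

/-- the operators of `V`, the additional letter acting by `0` -/
def ops0 : Option G → V →+ V
  | none => 0
  | some g => f g

/-- the operators on `V ⊕ V[x]/(x^3)` -/
def ops4 : Option G → (V × V × V × V) →+ (V × V × V × V)
  | none =>
    { toFun := fun z => (0, 0, z.2.1, z.2.2.1)
      map_zero' := rfl
      map_add' := fun z z' => by
        refine Prod.ext ?_ (Prod.ext ?_ (Prod.ext ?_ ?_)) <;> simp }
  | some g =>
    { toFun := fun z => (f g z.1, f g z.2.1, f g z.2.2.1, f g z.2.2.2)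
      map_zero' := by simp
      map_add' := fun z z' => by simp }

/-- `V` with the additional letter acting by `0` -/
abbrev X0 : Type u := OT (ops0 f)

/-- `V ⊕ V[x]/(x^3)` -/
abbrev X4 : Type u := OT (ops4 f)

theorem X0_xx (z : X0 f) : xx G • z = 0 := by
  obtain ⟨z, rfl⟩ := (eo (ops0 f)).surjective z
  exact ι_smul _ _ _

theorem X4_xx (z : V × V × V × V) :
    xx G • eo (ops4 f) z = eo (ops4 f) (0, 0, z.2.1, z.2.2.1) := ι_smul _ _ _

/-- inclusion -/
noncomputable def inc0 : X0 f →ₗ[FR G] X4 f :=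
  olin (AddMonoidHom.inl V (V × V × V)) (fun g z => by
      cases g with
      | none => rfl
      | some g =>
        show ((f g z, 0, 0, 0) : V × V × V × V) = (f g z, f g 0, f g 0, f g 0)
        simp)

/-- projection -/
noncomputable def pr0 : X4 f →ₗ[FR G] X0 f :=
  olin (AddMonoidHom.fst V (V × V × V)) (fun g z => by
      cases g with
      | none => rfl
      | some g => rfl)

theorem inc0_eo (a : V) : inc0 f (eo (ops0 f) a) = eo (ops4 f) (a, 0, 0, 0) := rfl

theorem pr0_eo (z : V × V × V × V) : pr0 f (eo (ops4 f) z) = eo (ops0 f) z.1 := rfl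

theorem pr0_inc0 (a : X0 f) : pr0 f (inc0 f a) = a := rfl

theorem ker_xx (z : X4 f) (hz : xx G • z = 0) :
    ∃ (a : X0 f) (y : X4 f), z = inc0 f a + xx G • y := by
  obtain ⟨⟨a, u, v, w⟩, rfl⟩ := (eo (ops4 f)).surjective z
  rw [X4_xx, AddEquiv.map_eq_zero_iff] at hz
  have h1 : u = 0 := congrArg (fun p : V × V × V × V => p.2.2.1) hz
  have h2 : v = 0 := congrArg (fun p : V × V × V × V => p.2.2.2) hz
  subst h1 h2
  refine ⟨eo _ a, eo _ (0, 0, w, 0), ?_⟩
  rw [X4_xx, inc0_eo, ← map_add]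
  simp

/-- the submodule `V[x]/(x^2)` of `V ⊕ V[x]/(x^3)` -/
noncomputable def K4 : Submodule (FR G) (X4 f) :=
  subOfGen (P := X4 f)
    (AddSubgroup.comap (eo (ops4 f)).symm.toAddMonoidHom
    { carrier := {z : V × V × V × V | z.2.1 = 0 ∧ z.2.2.1 = z.1}
      zero_mem' := ⟨rfl, rfl⟩
      add_mem' := by
        rintro ⟨a, u, v, w⟩ ⟨a', u', v', w'⟩ ⟨h1, h2⟩ ⟨h3, h4⟩
        simp only at h1 h2 h3 h4
        subst h1 h2 h3 h4
        exact ⟨add_zero _, rfl⟩
      neg_mem' := by
        rintro ⟨a, u, v, w⟩ ⟨h1, h2⟩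
        simp only at h1 h2
        subst h1 h2
        exact ⟨neg_zero, rfl⟩ })
    (by
      intro g z hz
      obtain ⟨⟨a, u, v, w⟩, rfl⟩ := (eo (ops4 f)).surjective z
      obtain ⟨h1, h2⟩ : u = 0 ∧ v = a := hz
      subst h1 h2
      rw [ι_smul]
      show (ops4 f g (v, 0, v, w)).2.1 = 0 ∧ (ops4 f g (v, 0, v, w)).2.2.1 = (ops4 f g (v, 0, v, w)).1
      cases g with
      | none => exact ⟨rfl, rfl⟩
      | some g => exact ⟨map_zero _, rfl⟩)

theorem mem_K4 (z : V × V × V × V) : eo (ops4 f) z ∈ K4 f ↔ z.2.1 = 0 ∧ z.2.2.1 = z.1 := Iff.rfl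

theorem exact_K4 : Exact (xx G) (K4 f) := by
  refine ⟨?_, ?_⟩
  · rintro ⟨z, hz⟩
    apply Subtype.ext
    show xx G • xx G • z = 0
    obtain ⟨⟨a, u, v, w⟩, rfl⟩ := (eo (ops4 f)).surjective z
    rw [mem_K4] at hz
    obtain ⟨h1, h2⟩ := hz
    simp only at h1 h2
    subst h1 h2
    rw [X4_xx, X4_xx]
    rfl
  · rintro ⟨z, hz⟩ h0
    have h0' : xx G • z = 0 := congrArg Subtype.val h0
    obtain ⟨⟨a, u, v, w⟩, rfl⟩ := (eo (ops4 f)).surjective z
    rw [mem_K4] at hz
    obtain ⟨h1, h2⟩ := hz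
    simp only at h1 h2
    subst h1 h2
    rw [X4_xx, AddEquiv.map_eq_zero_iff] at h0'
    have h3 : v = 0 := congrArg (fun p : V × V × V × V => p.2.2.2) h0'
    subst h3
    refine ⟨⟨eo (ops4 f) (w, 0, w, 0), (mem_K4 _ _).2 ⟨rfl, rfl⟩⟩, Subtype.ext ?_⟩
    show xx G • eo (ops4 f) (w, 0, w, 0) = _
    rw [X4_xx]

theorem exact_X4_K4 : Exact (xx G) (X4 f ⧸ K4 f) := by
  refine ⟨?_, ?_⟩
  · intro z
    obtain ⟨z, rfl⟩ := Submodule.mkQ_surjective _ z
    obtain ⟨z, rfl⟩ := (eo (ops4 f)).surjective z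
    rw [← map_smul, ← map_smul, Submodule.mkQ_apply, Submodule.Quotient.mk_eq_zero, X4_xx,
      X4_xx]
    exact ⟨rfl, rfl⟩
  · intro z hz
    obtain ⟨z, rfl⟩ := Submodule.mkQ_surjective _ z
    obtain ⟨⟨a, u, v, w⟩, rfl⟩ := (eo (ops4 f)).surjective z
    rw [← map_smul, Submodule.mkQ_apply, Submodule.Quotient.mk_eq_zero, X4_xx, mem_K4] at hz
    have h1 : u = 0 := hz.2
    subst h1
    refine ⟨Submodule.mkQ _ (eo (ops4 f) (0, v - a, 0, 0)), ?_⟩
    rw [← map_smul, X4_xx, Submodule.mkQ_apply, Submodule.mkQ_apply, Submodule.Quotient.eq,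
      ← map_sub, mem_K4]
    refine ⟨?_, ?_⟩
    · simp
    · simp

/-- `V ⊕ V[x]/(x^3)` has a filtration by small exact modules -/
theorem filt_X4 {μ : Cardinal.{u}} (hμ : ℵ₀ ≤ μ) (hR : #(FR G) ≤ μ) :
    Filt (fun N : ModuleCat.{u} (FR G) => Exact (xx G) N ∧ #N ≤ μ) (X4 f) := by
  refine filt_ext ?_ (K4 f) (exact_filt (exact_K4 f) hμ hR) (exact_filt (exact_X4_K4 f) hμ hR)
  rintro M N ⟨e⟩ ⟨h1, h2⟩
  exact ⟨h1.equiv e, by rwa [← Cardinal.mk_congr e.toEquiv]⟩

end Build

end Pool.Agent.W631.VP
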